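import Mathlib
import Pool.Agent.H60R3.Gul.Step
import Pool.Agent.H60R3.Gul.Cp

/-!
# Compacta whose square minus the diagonal is weakly sigma-metacompact

If `X` is a compact Hausdorff space such that the complement of the diagonal in `X × X` is weakly
`σ`-metacompact, then `X` is Gul'ko compact and `X × X` is hereditarily weakly `σ`-metacompact.
-/

namespace Pool.Agent.Results.MP_294ed4_gt.GulkoOffDiagonal

open Set Filter Topology

universe u

/-- A family `𝒜` of subsets of `Y` is weakly `σ`-point-finite: `𝒜` is a countable union of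
families `𝒜' n` such that for every point `y`, `𝒜` is the union of those `𝒜' n` which have only
finitely many members containing `y`. -/
def WeaklySigmaPointFinite {Y : Type u} (𝒜 : Set (Set Y)) : Prop :=
  ∃ 𝒜' : ℕ → Set (Set Y), 𝒜 = ⋃ n, 𝒜' n ∧
    ∀ y : Y, 𝒜 = ⋃ n ∈ {n : ℕ | {A ∈ 𝒜' n | y ∈ A}.Finite}, 𝒜' n

/-- Every open cover has a weakly `σ`-point-finite open refinement. -/
def WeaklySigmaMetacompact (Y : Type u) [TopologicalSpace Y] : Prop :=
  ∀ 𝒰 : Set (Set Y), (∀ U ∈ 𝒰, IsOpen U) → ⋃₀ 𝒰 = univ →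
    ∃ 𝒱 : Set (Set Y), (∀ V ∈ 𝒱, IsOpen V) ∧ ⋃₀ 𝒱 = univ ∧ (∀ V ∈ 𝒱, ∃ U ∈ 𝒰, V ⊆ U) ∧
      WeaklySigmaPointFinite 𝒱

/-- Every subspace is weakly `σ`-metacompact. -/
def HereditarilyWeaklySigmaMetacompact (Y : Type u) [TopologicalSpace Y] : Prop :=
  ∀ S : Set Y, WeaklySigmaMetacompact ↥S

/-- Lindelöf `Σ`-spaces: there are a countable family `𝒩` of subsets and a cover `𝒞` by compact
sets such that for `K ∈ 𝒞` and open `U ⊇ K` there is `M ∈ 𝒩` with `K ⊆ M ⊆ U`. -/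
def IsLindelofSigma (Y : Type u) [TopologicalSpace Y] : Prop :=
  ∃ (𝒩 : Set (Set Y)) (𝒞 : Set (Set Y)), 𝒩.Countable ∧ (∀ K ∈ 𝒞, IsCompact K) ∧
    ⋃₀ 𝒞 = univ ∧ ∀ K ∈ 𝒞, ∀ U : Set Y, IsOpen U → K ⊆ U → ∃ M ∈ 𝒩, K ⊆ M ∧ M ⊆ U

/-- Gul'ko compact spaces: the space of continuous real functions with the topology of pointwise
convergence (the subspace topology of the product `X → ℝ`) is a Lindelöf `Σ`-space. -/
def IsGulkoCompact (X : Type u) [TopologicalSpace X] : Prop :=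
  CompactSpace X ∧ T2Space X ∧ IsLindelofSigma {f : X → ℝ // Continuous f}

open Pool.Agent.H60R3.Gul

variable {X : Type u} [TopologicalSpace X]

/-- The data from weak `σ`-metacompactness off the diagonal. -/
theorem exists_dat [CompactSpace X] [T2Space X]
    (h : WeaklySigmaMetacompact {p : X × X // p.1 ≠ p.2}) : Nonempty (Dat X) := by
  classical
  obtain ⟨𝒱, h1, h2, h3, 𝒜, h4, h5⟩ := h
    {U | ∃ P Q : Set X, IsOpen P ∧ IsOpen Q ∧ Disjoint (closure P) (closure Q) ∧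
      U = {p | p.1.1 ∈ P ∧ p.1.2 ∈ Q}} (by
      rintro U ⟨P, Q, hP, hQ, -, rfl⟩
      exact (hP.preimage (continuous_fst.comp continuous_subtype_val)).inter
        (hQ.preimage (continuous_snd.comp continuous_subtype_val))) (by
      refine eq_univ_of_forall fun p => ?_
      obtain ⟨P, hxP, hP, Q, hxQ, hQ, hd⟩ := exists_open_nhds_disjoint_closure p.2
      exact ⟨_, ⟨P, Q, hP, hQ, hd, rfl⟩, hxP, hxQ⟩)
  have hV : ∀ V : ↥𝒱, ∃ f : X → ℝ, Continuous f ∧
      ∀ u v : X, ∀ huv : u ≠ v, (⟨(u, v), huv⟩ : {p : X × X // p.1 ≠ p.2}) ∈ V.1 →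
        f u = 0 ∧ f v = 1 := by
    intro V
    obtain ⟨U, ⟨P, Q, hP, hQ, hd, rfl⟩, hVU⟩ := h3 V.1 V.2
    obtain ⟨f, hf0, hf1, -⟩ := exists_continuous_zero_one_of_isClosed
      (isClosed_closure (s := P)) (isClosed_closure (s := Q)) hd
    refine ⟨f, f.continuous, fun u v huv hmem => ?_⟩
    have := hVU hmem
    exact ⟨hf0 (subset_closure this.1), hf1 (subset_closure this.2)⟩
  choose hh hh1 hh2 using hV
  have hopen : IsOpen {p : X × X | p.1 ≠ p.2} := isOpen_ne_fun continuous_fst continuous_snd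
  have hgood : ∀ y : {p : X × X // p.1 ≠ p.2}, ∀ V ∈ 𝒱,
      ∃ n, V ∈ 𝒜 n ∧ {A ∈ 𝒜 n | y ∈ A}.Finite := by
    intro y V hV
    rw [h5 y] at hV
    simp only [mem_iUnion] at hV
    obtain ⟨n, hn1, hn2⟩ := hV
    exact ⟨n, hn2, hn1⟩
  refine ⟨{ J := Option ↥𝒱
            j0 := none
            V := fun j => match j with
              | none => ∅
              | some V => Subtype.val '' V.1
            V_open := ?_
            N := fun j => match j with
              | none => univ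
              | some V => {n | V.1 ∈ 𝒜 n}
            h := fun j => match j with
              | none => fun _ => 0
              | some V => hh V
            h_cont := ?_
            h_spec := ?_
            cover := ?_
            fin := ?_ }⟩
  · rintro (_ | V)
    · exact isOpen_empty
    · exact hopen.isOpenEmbedding_subtypeVal.isOpenMap _ (h1 V.1 V.2)
  · rintro (_ | V)
    · exact continuous_const
    · exact hh1 V
  · rintro (_ | V) u v huv
    · exact absurd huv (by simp)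
    · obtain ⟨⟨q, hq⟩, hq1, hq2⟩ := huv
      simp only at hq2
      subst hq2
      exact hh2 V u v hq hq1
  · intro u v huv
    have : (⟨(u, v), huv⟩ : {p : X × X // p.1 ≠ p.2}) ∈ ⋃₀ 𝒱 := by rw [h2]; trivial
    obtain ⟨V, hV, hmem⟩ := this
    exact ⟨some ⟨V, hV⟩, ⟨_, hmem, rfl⟩⟩
  · intro z j
    by_cases hz : z.1 ≠ z.2
    · have hex : ∃ V ∈ 𝒱, (⟨z, hz⟩ : {p : X × X // p.1 ≠ p.2}) ∈ V := by
        have : (⟨z, hz⟩ : {p : X × X // p.1 ≠ p.2}) ∈ ⋃₀ 𝒱 := by rw [h2]; trivial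
        exact this
      have hj : ∃ V : ↥𝒱, ∀ n, V.1 ∈ 𝒜 n → n ∈ (match j with
          | none => (univ : Set ℕ)
          | some V => {n | V.1 ∈ 𝒜 n}) := by
        cases j with
        | none =>
          obtain ⟨V, hV, -⟩ := hex
          exact ⟨⟨V, hV⟩, fun n _ => mem_univ n⟩
        | some V => exact ⟨V, fun n hn => hn⟩
      obtain ⟨V, hVj⟩ := hj
      obtain ⟨n, hn1, hn2⟩ := hgood ⟨z, hz⟩ V.1 V.2
      refine ⟨n, hVj n hn1, ?_⟩
      refine Set.Finite.of_finite_image (f := fun j : Option ↥𝒱 => j.map Subtype.val) ?_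
        (Option.map_injective Subtype.val_injective).injOn
      refine (hn2.image some).subset ?_
      rintro _ ⟨j', ⟨k1, k2⟩, rfl⟩
      cases j' with
      | none => exact absurd k2 (by simp)
      | some W =>
        obtain ⟨⟨q, hq⟩, hq1, hq2⟩ := k2
        simp only at hq2
        subst hq2
        exact ⟨W.1, ⟨k1, hq1⟩, rfl⟩
    · have hempty : ∀ n : ℕ, {j' : Option ↥𝒱 | n ∈ (match j' with
          | none => (univ : Set ℕ)
          | some V => {n | V.1 ∈ 𝒜 n}) ∧ z ∈ (match j' with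
              | none => (∅ : Set (X × X))
              | some V => Subtype.val '' V.1)}.Finite := by
        intro n
        refine Set.finite_empty.subset ?_
        rintro j' ⟨-, k2⟩
        cases j' with
        | none => exact absurd k2 (by simp)
        | some W =>
          obtain ⟨⟨q, hq⟩, -, hq2⟩ := k2
          simp only at hq2
          subst hq2
          exact absurd hq hz
      cases j with
      | none => exact ⟨0, mem_univ 0, hempty 0⟩
      | some V =>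
        obtain ⟨n, hn⟩ := mem_iUnion.1 (h4.subset V.2)
        exact ⟨n, hn, hempty n⟩

/-- Separating labelled families. -/
theorem exists_lf [CompactSpace X] [T2Space X]
    (h : WeaklySigmaMetacompact {p : X × X // p.1 ≠ p.2}) :
    ∃ (J : Type u) (_ : J) (N : J → Set ℕ) (𝓕 : LF.{u, u} X N),
      ∀ u v : X, (∀ i, 𝓕.g i u = 𝓕.g i v) → u = v := by
  rcases isEmpty_or_nonempty X with hX | hX
  · refine ⟨PUnit, PUnit.unit, fun _ => univ, ⟨PEmpty, fun i => i.elim, fun i => i.elim,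
      fun i => i.elim, fun i => i.elim, fun x => (hX.false x).elim⟩, fun u => (hX.false u).elim⟩
  · obtain ⟨D⟩ := exists_dat h
    obtain ⟨𝓕, h𝓕⟩ := exists_fam_univ D
    exact ⟨D.J, D.j0, D.N, 𝓕, h𝓕⟩

/-- The labelled family on the square. -/
noncomputable def lfProd {J : Type u} {N : J → Set ℕ} (𝓕 : LF.{u, u} X N) :
    LF.{u, u} (X × X) N where
  I := 𝓕.I ⊕ 𝓕.I
  g := fun i p => match i with
    | Sum.inl i => 𝓕.g i p.1
    | Sum.inr i => 𝓕.g i p.2
  g_cont := by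
    rintro (i | i)
    · exact (𝓕.g_cont i).comp continuous_fst
    · exact (𝓕.g_cont i).comp continuous_snd
  tag := fun i => match i with
    | Sum.inl i => 𝓕.tag i
    | Sum.inr i => 𝓕.tag i
  lab := fun i => match i with
    | Sum.inl i => 𝓕.lab i
    | Sum.inr i => 𝓕.lab i
  fin := by
    classical
    intro p t L
    obtain ⟨F, hF1, hF2⟩ := 𝓕.fin p.1 t L
    obtain ⟨F', hF1', hF2'⟩ := 𝓕.fin p.2 t L
    refine ⟨F ∪ F', ?_, ?_⟩
    · intro q hq
      rcases Finset.mem_union.1 hq with hq | hq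
      · exact hF1 q hq
      · exact hF1' q hq
    · refine ((hF2.image Sum.inl).union (hF2'.image Sum.inr)).subset ?_
      rintro (i | i) ⟨k1, k2, k3⟩
      · exact Or.inl ⟨i, ⟨k1, fun q hq => k2 q (Finset.mem_union_left _ hq), k3⟩, rfl⟩
      · exact Or.inr ⟨i, ⟨k1, fun q hq => k2 q (Finset.mem_union_right _ hq), k3⟩, rfl⟩

/-- Cozero sets of a labelled family form a weakly `σ`-point-finite family. -/
theorem wspf_of_lf {Z : Type u} [TopologicalSpace Z] {J : Type u} {N : J → Set ℕ}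
    (𝓖 : LF.{u, u} Z N) (S : Set Z) :
    WeaklySigmaPointFinite (range fun κ => {p : ↥S | 𝓖.g κ p ≠ 0}) := by
  classical
  let B : ℕ × Finset (ℕ × ℕ) → Set (Set ↥S) := fun q =>
    {A | ∃ κ, 𝓖.tag κ = q.1 ∧ (∀ p ∈ q.2, p.2 ∈ N (𝓖.lab κ p.1)) ∧ A = {p : ↥S | 𝓖.g κ p ≠ 0}}
  let 𝒜 : ℕ → Set (Set ↥S) := fun n =>
    match (Encodable.decode n : Option (ℕ × Finset (ℕ × ℕ))) with
    | none => ∅
    | some q => B q
  have hA : ∀ q, 𝒜 (Encodable.encode q) = B q := by
    intro q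
    simp only [𝒜, Encodable.encodek]
  have hsub : ∀ n, 𝒜 n ⊆ range fun κ => {p : ↥S | 𝓖.g κ p ≠ 0} := by
    intro n A hAn
    simp only [𝒜] at hAn
    split at hAn
    · exact absurd hAn (by simp)
    · obtain ⟨κ, -, -, rfl⟩ := hAn
      exact ⟨κ, rfl⟩
  refine ⟨𝒜, ?_, ?_⟩
  · apply subset_antisymm
    · rintro _ ⟨κ, rfl⟩
      refine mem_iUnion.2 ⟨Encodable.encode (𝓖.tag κ, (∅ : Finset (ℕ × ℕ))), ?_⟩
      rw [hA]
      exact ⟨κ, rfl, by simp, rfl⟩
    · exact iUnion_subset hsub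
  · intro y
    apply subset_antisymm
    · rintro _ ⟨κ, rfl⟩
      obtain ⟨F, hF1, hF2⟩ := 𝓖.fin y (𝓖.tag κ) (𝓖.lab κ)
      simp only [mem_iUnion]
      refine ⟨Encodable.encode (𝓖.tag κ, F), ?_, ?_⟩
      · change {A ∈ 𝒜 (Encodable.encode (𝓖.tag κ, F)) | y ∈ A}.Finite
        rw [hA]
        refine (hF2.image fun κ => {p : ↥S | 𝓖.g κ p ≠ 0}).subset ?_
        rintro A ⟨⟨κ', k1, k2, rfl⟩, hy⟩
        exact ⟨κ', ⟨k1, k2, hy⟩, rfl⟩
      · rw [hA]
        exact ⟨κ, rfl, hF1, rfl⟩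
    · exact iUnion_subset fun n => iUnion_subset fun _ => hsub n

/-- Compacta with separating labelled families are hereditarily weakly `σ`-metacompact. -/
theorem hereditary_of_lf {Z : Type u} [TopologicalSpace Z] [CompactSpace Z] {J : Type u} (j0 : J)
    {N : J → Set ℕ} (𝓕 : LF.{u, u} Z N)
    (hsep : ∀ u v : Z, (∀ i, 𝓕.g i u = 𝓕.g i v) → u = v) :
    HereditarilyWeaklySigmaMetacompact Z := by
  intro S 𝒰 hU1 hU2
  obtain ⟨𝓖, h1, h2, -⟩ := LF.refine 𝓕 j0
    {O | IsOpen O ∧ ∃ U ∈ 𝒰, (Subtype.val ⁻¹' O : Set ↥S) = U} (by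
    rintro O ⟨hO, -⟩ x hx
    obtain ⟨E, ε, hε, hE⟩ := basic_of_sep 𝓕.g 𝓕.g_cont (K := univ) isClosed_univ hO hx
      (fun z _ hz => hsep z x hz)
    exact ⟨E, ε, hε, fun y hy => hE y (mem_univ y) hy⟩)
  refine ⟨range fun κ => {p : ↥S | 𝓖.g κ p ≠ 0}, ?_, ?_, ?_, wspf_of_lf 𝓖 S⟩
  · rintro _ ⟨κ, rfl⟩
    exact isOpen_ne_fun ((𝓖.g_cont κ).comp continuous_subtype_val) continuous_const
  · refine eq_univ_of_forall fun p => ?_
    have hp : p ∈ ⋃₀ 𝒰 := by rw [hU2]; trivial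
    obtain ⟨U, hU, hpU⟩ := hp
    obtain ⟨O, hO, hOU⟩ := isOpen_induced_iff.1 (hU1 U hU)
    obtain ⟨κ, hκ⟩ := h2 O ⟨hO, U, hU, hOU⟩ p (by rw [← hOU] at hpU; exact hpU)
    exact ⟨_, ⟨κ, rfl⟩, hκ⟩
  · rintro _ ⟨κ, rfl⟩
    obtain ⟨O, ⟨-, U, hU, hOU⟩, hκ⟩ := h1 κ
    refine ⟨U, hU, fun p hp => ?_⟩
    rw [← hOU]
    exact hκ p hp

/-- **Main theorem.** Let `X` be a compact Hausdorff space such that `X × X` minus the diagonal
is weakly `σ`-metacompact. Then `X × X` is hereditarily weakly `σ`-metacompact (Q1) and `X` is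
Gul'ko compact (Q2). -/
theorem result (X : Type u) [TopologicalSpace X] [CompactSpace X] [T2Space X]
    (h : WeaklySigmaMetacompact {p : X × X // p.1 ≠ p.2}) :
    HereditarilyWeaklySigmaMetacompact (X × X) ∧ IsGulkoCompact X := by
  obtain ⟨J, j0, N, 𝓕, h𝓕⟩ := exists_lf h
  refine ⟨?_, inferInstance, inferInstance, lindelofSigma_cp 𝓕 h𝓕⟩
  refine hereditary_of_lf j0 (lfProd 𝓕) ?_
  intro u v huv
  refine Prod.ext (h𝓕 _ _ fun i => huv (Sum.inl i)) (h𝓕 _ _ fun i => huv (Sum.inr i))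

end Pool.Agent.Results.MP_294ed4_gt.GulkoOffDiagonal
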